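import Pool.Agent.helper64.PB.SpecA

set_option autoImplicit false

namespace Pool.Agent.PB

theorem SIM_avmono {n : ℕ} (l' l : List (BF n)) (f : BF n) (h : Av l f) : Av (l' ++ l) f := by
  rcases h with h | h
  · exact Or.inl (List.mem_append_right _ h)
  · exact Or.inr h

theorem SIM (hSUB : SUB_stmt) : SIM_stmt := by
  intro G n S t b l0 c0 Γa Γo Γn hl0 ht hb hvar hcon hSa hSo hSn hand hor hnot f s hf
  have key : ∀ l : List (BF n), Prog std n l →
      ∃ l', Prog G n (l' ++ l0) ∧ l'.length ≤ c0 * l.length ∧ ∀ u, Av l u → Av (l' ++ l0) (S u) := by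
    intro l hl
    induction hl with
    | nil =>
      refine ⟨[], hl0, by simp, ?_⟩
      intro u hu
      rcases hu with hu | ⟨j, rfl⟩
      · simp at hu
      · exact hvar j
    | step l g a hl hg ha ih =>
      obtain ⟨l', hl', hlen, hav⟩ := ih
      have hcons : ∀ (w : BF n), (∃ l'', Prog G n (l'' ++ (l' ++ l0)) ∧ l''.length ≤ c0 ∧
          Av (l'' ++ (l' ++ l0)) (S w)) →
          ∃ l', Prog G n (l' ++ l0) ∧ l'.length ≤ c0 * (w :: l).length ∧
            ∀ u, Av (w :: l) u → Av (l' ++ l0) (S u) := by
        rintro w ⟨l'', h1, h2, h3⟩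
        refine ⟨l'' ++ l', by rw [List.append_assoc]; exact h1, ?_, ?_⟩
        · rw [List.length_append, List.length_cons, Nat.mul_add, Nat.mul_one]
          omega
        · intro u hu
          rw [List.append_assoc]
          rcases hu with hu | hu
          · rcases List.mem_cons.1 hu with rfl | hu
            · exact h3
            · exact SIM_avmono _ _ _ (hav u (Or.inl hu))
          · exact SIM_avmono _ _ _ (hav u (Or.inr hu))
      have ht' : Av (l' ++ l0) t := SIM_avmono _ _ _ ht
      have hb' : Av (l' ++ l0) b := SIM_avmono _ _ _ hb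
      apply hcons
      simp only [std, Set.mem_insert_iff, Set.mem_singleton_iff] at hg
      rcases hg with rfl | rfl | rfl | rfl | rfl
      · exact ⟨[], hl', by simp, SIM_avmono _ _ _ (SIM_avmono _ _ _ (hcon false))⟩
      · exact ⟨[], hl', by simp, SIM_avmono _ _ _ (SIM_avmono _ _ _ (hcon true))⟩
      · have h0 := hav (a (0 : Fin 1)) (ha (0 : Fin 1))
        obtain ⟨l'', h1, h2, h3⟩ := hSUB G 3 n Γn c0 (l' ++ l0) ![S (a (0 : Fin 1)), t, b] hSn hl' (by
          intro i
          fin_cases i
          · exact h0
          · exact ht'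
          · exact hb')
        refine ⟨l'', h1, h2, ?_⟩
        have e : S (fun x => gNot.2 fun i => a i x) =
            fun x => Γn fun i => (![S (a (0 : Fin 1)), t, b] : Fin 3 → BF n) i x := by
          have := hnot (a (0 : Fin 1))
          refine Eq.trans this ?_
          funext x
          congr 1
          funext i
          fin_cases i <;> rfl
        rw [e]
        exact h3
      · have h0 := hav (a (0 : Fin 2)) (ha (0 : Fin 2))
        have h0' := hav (a (1 : Fin 2)) (ha (1 : Fin 2))
        obtain ⟨l'', h1, h2, h3⟩ := hSUB G 4 n Γa c0 (l' ++ l0) ![S (a (0 : Fin 2)), S (a (1 : Fin 2)), t, b] hSa hl' (by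
          intro i
          fin_cases i
          · exact h0
          · exact h0'
          · exact ht'
          · exact hb')
        refine ⟨l'', h1, h2, ?_⟩
        have e : S (fun x => gAnd.2 fun i => a i x) =
            fun x => Γa fun i => (![S (a (0 : Fin 2)), S (a (1 : Fin 2)), t, b] : Fin 4 → BF n) i x := by
          have := hand (a (0 : Fin 2)) (a (1 : Fin 2))
          refine Eq.trans this ?_
          funext x
          congr 1
          funext i
          fin_cases i <;> rfl
        rw [e]
        exact h3
      · have h0 := hav (a (0 : Fin 2)) (ha (0 : Fin 2))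
        have h0' := hav (a (1 : Fin 2)) (ha (1 : Fin 2))
        obtain ⟨l'', h1, h2, h3⟩ := hSUB G 4 n Γo c0 (l' ++ l0) ![S (a (0 : Fin 2)), S (a (1 : Fin 2)), t, b] hSo hl' (by
          intro i
          fin_cases i
          · exact h0
          · exact h0'
          · exact ht'
          · exact hb')
        refine ⟨l'', h1, h2, ?_⟩
        have e : S (fun x => gOr.2 fun i => a i x) =
            fun x => Γo fun i => (![S (a (0 : Fin 2)), S (a (1 : Fin 2)), t, b] : Fin 4 → BF n) i x := by
          have := hor (a (0 : Fin 2)) (a (1 : Fin 2))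
          refine Eq.trans this ?_
          funext x
          congr 1
          funext i
          fin_cases i <;> rfl
        rw [e]
        exact h3
  obtain ⟨l, hl, hls, hfl⟩ := hf
  obtain ⟨l', hl', hlen, hav⟩ := key l hl
  refine ⟨l' ++ l0, hl', ?_, hav f hfl⟩
  rw [List.length_append]
  have := Nat.mul_le_mul_left c0 hls
  omega

end Pool.Agent.PB
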